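import Pool.Agent.Helper65.BR.Goals

/-!
# Machines with a memory of blocks: final assembly
-/

namespace Pool.Agent.Helper91.BR

open Pool.Agent.Helper65.LinSpace Pool.Agent.Helper78.Mpc Pool.Agent.Helper28.Ram Finset Filter
open Pool.Agent.Helper65.BR
open Pool.Agent.Helper28.Long (ZL)

/-- The number of a short word is small. -/
theorem num_lt {w : List Bool} {S : ℕ} (h : w.length ≤ S) : num w < 2 ^ (S + 1) := by
  have h1 : Nat.log 2 (num w) = w.length := Pool.Agent.Helper65.LinSpace.log_num w
  have h2 : num w < 2 ^ (Nat.log 2 (num w) + 1) := Nat.lt_pow_succ_log_self (by norm_num) _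
  rw [h1] at h2
  exact h2.trans_le (Nat.pow_le_pow_right (by norm_num) (by omega))

theorem accN_eq_zero {w : List Bool} (h : ¬ w.head? = some true) : accN (num w) = 0 := by
  have h1 := accN_le (num w)
  have h2 : ¬ accN (num w) = 1 := fun h3 => h ((accN_num w).1 h3)
  omega

/-- The assembly. -/
theorem fin (hT : TRU_stmt) (hP : PAR_stmt) (hR : RUNC_stmt) (hC : CODE_stmt) (hW : WORD_stmt)
    (hA : ASY_stmt) (hS : SIZ_stmt) : FIN_stmt := by
  intro s A C
  obtain ⟨eS, eA, eB, eN, eW, c, hc⟩ := hC A
  obtain ⟨n₀, hn₀⟩ := eventually_atTop.1 (hS c)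
  obtain ⟨n₁, hn₁⟩ := eventually_atTop.1 (hA C)
  obtain ⟨e, he⟩ : ∃ e, e = Nat.pair (Nat.pair eS eA) (Nat.pair eB (Nat.pair eN eW)) := ⟨_, rfl⟩
  refine ⟨e, n₀ + n₁, fun w y hw => ?_⟩
  have hlog : Nat.log 2 (num w) = w.length := Pool.Agent.Helper65.LinSpace.log_num w
  have hNF : NF (num w) = (w.length + 2) ^ 3 := by
    unfold NF
    rw [hlog]
  -- the parameters
  have pS : ∀ T p, (prm e (num w) (num y) T p).S = bT w.length T 0 := fun T p => by
    show bT (Nat.log 2 (num w)) T 0 = _
    rw [hlog]
  have pH : ∀ T p, (prm e (num w) (num y) T p).H = bT w.length T 1 := fun T p => by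
    show bT (Nat.log 2 (num w)) T 1 = _
    rw [hlog]
  have pZ : ∀ T p, (prm e (num w) (num y) T p).Z = bT w.length T 2 := fun T p => by
    show bT (Nat.log 2 (num w)) T 2 = _
    rw [hlog]
  have pΛ : ∀ T p, (prm e (num w) (num y) T p).Λ = LW w.length := fun T p => by
    show LW (Nat.log 2 (num w)) = _
    rw [hlog]
  have pβ : ∀ T p, (prm e (num w) (num y) T p).β = 2 ^ (2 * ll w.length) := fun T p => by
    show 2 ^ (2 * ll (Nat.log 2 (num w))) = _
    rw [hlog]
  have pE : ∀ T p, (prm e (num w) (num y) T p).E = ifz (oT w.length T) 1 (gT w.length T) :=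
    fun T p => by
      show ifz (oT (Nat.log 2 (num w)) T) 1 (gT (Nat.log 2 (num w)) T) = _
      rw [hlog]
  have pG : ∀ T p, (prm e (num w) (num y) T p).G = ifz (oT w.length T) 1 (gT w.length T) :=
    fun T p => by
      show ifz (oT (Nat.log 2 (num w)) T) 1 (gT (Nat.log 2 (num w)) T) = _
      rw [hlog]
  have pK : ∀ T p, (prm e (num w) (num y) T p).K = ifz (oT w.length T) 0 (kT w.length T) :=
    fun T p => by
      show ifz (oT (Nat.log 2 (num w)) T) 0 (kT (Nat.log 2 (num w)) T) = _
      rw [hlog]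
  have hcod : ∀ T p, CodB A (prm e (num w) (num y) T p) := by
    intro T p
    obtain ⟨h1, h2, h3⟩ := hn₀ w.length (by omega) (bT w.length T 0) (min_le_right _ _)
      (bT w.length T 1) (min_le_right _ _) (bT w.length T 2) (min_le_right _ _)
    obtain ⟨h4, h5, h6⟩ := h3 (num w) hlog
    refine hc _ ?_ ?_ ?_ ?_ ?_ ?_ ?_ ?_ ?_ ?_
    · show (Nat.unpair (Nat.unpair e).1).1 = eS
      rw [he]
      simp only [Nat.unpair_pair]
    · show (Nat.unpair (Nat.unpair e).1).2 = eA
      rw [he]
      simp only [Nat.unpair_pair]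
    · show (Nat.unpair (Nat.unpair e).2).1 = eB
      rw [he]
      simp only [Nat.unpair_pair]
    · show (Nat.unpair (Nat.unpair (Nat.unpair e).2).2).1 = eN
      rw [he]
      simp only [Nat.unpair_pair]
    · show (Nat.unpair (Nat.unpair (Nat.unpair e).2).2).2 = eW
      rw [he]
      simp only [Nat.unpair_pair]
    · rw [pS, pZ, pH, pΛ]
      have : bT w.length T 0 + bT w.length T 2 + bT w.length T 1 =
        bT w.length T 0 + bT w.length T 2 + bT w.length T 1 := rfl
      convert h1 using 1
    · rw [pS, pZ, pH, pΛ, pβ]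
      convert h2 using 1
    · rw [pS]
      exact h4
    · rw [pZ]
      exact h5
    · rw [pH]
      exact h6
  -- the simulation
  have hsim : ∀ T p, s.sim (Nat.log 2 (num w)) (prm e (num w) (num y) T p).mach.rt =
      accN ((prm e (num w) (num y) T p).mach.conf
        ((prm e (num w) (num y) T p).mach.rt.K * (prm e (num w) (num y) T p).mach.R)).1 := by
    intro T p
    obtain ⟨h1, h2⟩ := hP e (num w) (num y) T p
    rw [s.eq _ _ (hT.ok _ h2) h1]
    exact hT.tr _ h2
  constructor
  · intro T _ hne
    unfold accF at hne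
    obtain ⟨q, hq, h0⟩ := exists_ne_zero_of_sum_ne_zero hne
    rw [mem_range, hlog] at hq
    have hq1 : q ≠ 0 := by
      intro h
      apply h0
      rw [h, lt01, if_neg (lt_irrefl 0), zero_mul]
    have h1 : s.sim (Nat.log 2 (num w)) (prm e (num w) (num y) T q).mach.rt ≠ 0 := by
      intro h
      apply h0
      rw [h, mul_zero]
    rw [hsim] at h1
    obtain ⟨p, rfl⟩ := Pool.Agent.Helper65.LinSpace.exists_num (Nat.pos_of_ne_zero hq1)
    have hp : p.length ≤ (prm e (num w) (num y) T (num p)).S := by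
      rw [pS, ← Pool.Agent.Helper65.LinSpace.log_num p]
      have := Nat.log_lt_of_lt_pow hq1 hq
      omega
    obtain ⟨j, hj⟩ := hR.snd (prm e (num w) (num y) T (num p))
      ((prm e (num w) (num y) T (num p)).mach.rt.K * (prm e (num w) (num y) T (num p)).mach.R)
    rw [hj] at h1
    obtain ⟨t, ht⟩ := hW.snd A _ w y p (hcod T (num p)) rfl rfl rfl hp j h1
    exact ⟨p, t, ht⟩
  · rintro ⟨p, r₁, s₁, m, a, hacc, hps, hfit, b1, b2⟩
    classical
    have hex : ∃ r, A.AcceptsAt w y p r := ⟨r₁, hacc⟩
    set r := Nat.find hex with hr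
    have hr0 : A.AcceptsAt w y p r := Nat.find_spec hex
    have hrmin : ∀ t < r, ¬ A.AcceptsAt w y p t := fun t ht => Nat.find_min hex ht
    have hrr : r ≤ r₁ := Nat.find_min' hex hacc
    have hfit' : A.Fits w y p r s₁ m a := fun t ht => hfit t (ht.trans hrr)
    have hs : 1 ≤ s₁ := by
      have h1 := (hfit' r le_rfl).1
      have h2 : (A.conf w y p r).1 ≠ [] := by
        intro h
        unfold BM.AcceptsAt at hr0
        rw [h] at hr0
        simp at hr0
      have h3 : 0 < (A.conf w y p r).1.length := List.length_pos_iff.2 h2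
      omega
    have hreads : A.reads w y p r ≤ A.reads w y p r₁ := by
      unfold BM.reads
      apply Set.ncard_le_ncard
      · intro t ht
        exact ⟨lt_of_lt_of_le ht.1 hrr, ht.2⟩
      · exact (Set.finite_lt_nat r₁).subset fun t ht => ht.1
    have b1' : ((A.reads w y p r : ℕ) : ℝ) ^ 2 * ((a : ℝ) + 1) *
        ((m : ℝ) + ((Nat.log 2 w.length : ℝ) + 1)) ^ 4 ≤ C * ((w.length : ℝ) + 1) ^ 3 := by
      refine le_trans ?_ b1
      have : ((A.reads w y p r : ℕ) : ℝ) ≤ ((A.reads w y p r₁ : ℕ) : ℝ) := by exact_mod_cast hreads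
      gcongr
    obtain ⟨T, hT0, e0, e1, e2, e3, e4, e5⟩ := hn₁ w.length (by omega) (A.reads w y p r) s₁ m a hs
      b1' b2
    refine ⟨T, by rw [hNF]; exact hT0, ?_⟩
    have hpr : num p < 2 ^ (bT (Nat.log 2 (num w)) T 0 + 1) := by
      rw [hlog, e0]
      exact num_lt hps
    have hone : (prm e (num w) (num y) T (num p)).E = gT w.length T := by
      rw [pE, e3]
      rfl
    have hone' : (prm e (num w) (num y) T (num p)).G = gT w.length T := by
      rw [pG, e3]
      rfl
    have hone'' : (prm e (num w) (num y) T (num p)).K = kT w.length T := by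
      rw [pK, e3]
      rfl
    have hmP : (prm e (num w) (num y) T (num p)).mach.P = (s₁ + 1) / (a + 1) + 1 := by
      show ((prm e (num w) (num y) T (num p)).S + 1) / ((prm e (num w) (num y) T (num p)).H + 1) + 1
        = _
      rw [pS, pH, e0, e1]
    have hmR : (prm e (num w) (num y) T (num p)).mach.R =
        gT w.length T * gT w.length T - ((s₁ + 1) / (a + 1) + 2) := by
      show (prm e (num w) (num y) T (num p)).G * (prm e (num w) (num y) T (num p)).E -
        ((prm e (num w) (num y) T (num p)).mach.P + 1) = _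
      rw [hone, hone', hmP]
    have hmK : (prm e (num w) (num y) T (num p)).mach.rt.K = kT w.length T := by
      show ifz (le01 ((prm e (num w) (num y) T (num p)).mach.P + 1)
        ((prm e (num w) (num y) T (num p)).G * (prm e (num w) (num y) T (num p)).E)) 0
        (prm e (num w) (num y) T (num p)).K = _
      rw [hone, hone', hone'', hmP]
      have h1 : (s₁ + 1) / (a + 1) + 1 + 1 ≤ gT w.length T * gT w.length T := by omega
      rw [le01, if_pos h1]
      rfl
    have hcmp := hW.cmp A (prm e (num w) (num y) T (num p)) w y p (hcod T (num p)) rfl rfl rfl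
      (by rw [pS, e0]; exact hps) r (by rw [pS, pH, pZ, e0, e1, e2]; exact hfit') hrmin
    have hrun := hR.cmp (prm e (num w) (num y) T (num p)) r (by
        rw [(hcmp r le_rfl).1]
        have := (accN_num (A.conf w y p r).1).2 hr0
        omega) (by
        intro j hj
        rw [(hcmp j hj.le).1]
        exact accN_eq_zero (hrmin j hj)) (kT w.length T *
          (gT w.length T * gT w.length T - ((s₁ + 1) / (a + 1) + 2))) (by
        refine le_trans (le_of_eq ?_) e5
        unfold BM.reads
        congr 1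
        ext j
        constructor
        · rintro ⟨h1, h2⟩
          exact ⟨h1, (hcmp j h1.le).2.1 h2⟩
        · rintro ⟨h1, h2⟩
          exact ⟨h1, (hcmp j h1.le).2.2 h2⟩)
    unfold accF
    intro h0
    rw [sum_eq_zero_iff] at h0
    have h1 := h0 (num p) (mem_range.2 hpr)
    rw [lt01, if_pos (Pool.Agent.Helper65.LinSpace.num_pos p), one_mul, hsim, hmK, hmR] at h1
    exact hrun h1

end Pool.Agent.Helper91.BR
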